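import Pool.Agent.Helper73.RF.GoalsB

set_option autoImplicit false

open Finset

namespace Pool.Agent.Helper37.RF

open Pool.Agent.Helper73.RF

variable {T : ℝ} (F : FBD T)

/-- the span of the derivatives of order `m` -/
noncomputable def GG (m : ℕ) : Submodule ℝ F.B := Submodule.span ℝ (F.Gset m)

/-- the span of the products of total order `m` -/
noncomputable def SS (m : ℕ) : Submodule ℝ F.B :=
  Submodule.span ℝ {y | ∃ k l : ℕ, k + l = m ∧ ∃ a ∈ F.Gset k, ∃ b ∈ F.Gset l, y = a * b}

lemma mem_GG {m : ℕ} {x : F.B} (hx : x ∈ F.Gset m) : x ∈ GG F m := Submodule.subset_span hx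

lemma H_Gset {m : ℕ} {x : F.B} (hx : x ∈ F.Gset m) (a : Fin 3) : F.H a x ∈ F.Gset (m + 1) := by
  obtain ⟨w, i, j, hw, rfl⟩ := hx
  exact ⟨a :: w, i, j, by simp [hw], rfl⟩

lemma H_GG {m : ℕ} {x : F.B} (hx : x ∈ GG F m) (a : Fin 3) : F.H a x ∈ GG F (m + 1) := by
  unfold GG at hx ⊢
  induction hx using Submodule.span_induction with
  | mem x h => exact Submodule.subset_span (H_Gset F h a)
  | zero => simp
  | add x y _ _ hx hy => rw [map_add]; exact Submodule.add_mem _ hx hy
  | smul c x _ hx => rw [Derivation.map_smul]; exact Submodule.smul_mem _ c hx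

lemma M_Gset (i j : Fin 3) : F.M i j ∈ F.Gset 0 := ⟨[], i, j, rfl, rfl⟩

lemma M_GG (i j : Fin 3) : F.M i j ∈ GG F 0 := mem_GG F (M_Gset F i j)

lemma V_Gset (hF : F.Full) {m : ℕ} : ∀ {x : F.B}, x ∈ F.Gset m → ∀ k : Fin 3,
    F.V k x ∈ GG F m := by
  induction m with
  | zero =>
    intro x hx k
    obtain ⟨w, i, j, hw, rfl⟩ := hx
    have : w = [] := List.length_eq_zero_iff.mp hw
    subst this
    change F.V k (F.M i j) ∈ _
    rw [hF.VM]
    exact Submodule.sum_mem _ fun a _ => Submodule.add_mem _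
      (Submodule.smul_mem _ _ (M_GG F _ _)) (Submodule.smul_mem _ _ (M_GG F _ _))
  | succ m ih =>
    intro x hx k
    obtain ⟨w, i, j, hw, rfl⟩ := hx
    cases w with
    | nil => simp at hw
    | cons a w =>
      have hw' : w.length = m := by simpa using hw
      have hx' : F.Hw w (F.M i j) ∈ F.Gset m := ⟨w, i, j, hw', rfl⟩
      change F.V k (F.H a (F.Hw w (F.M i j))) ∈ _
      have h1 : F.V k (F.H a (F.Hw w (F.M i j))) = F.H a (F.V k (F.Hw w (F.M i j)))
          + ∑ b, eps k a b • F.H b (F.Hw w (F.M i j)) := by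
        rw [← hF.VH]; ring
      rw [h1]
      exact Submodule.add_mem _ (H_GG F (ih hx' k) a)
        (Submodule.sum_mem _ fun b _ => Submodule.smul_mem _ _ (mem_GG F (H_Gset F hx' b)))

lemma mul_SS {k l : ℕ} {x y : F.B} (hx : x ∈ GG F k) (hy : y ∈ GG F l) :
    x * y ∈ SS F (k + l) := by
  unfold GG at hx hy
  unfold SS
  have h := Submodule.mul_mem_mul hx hy
  rw [Submodule.span_mul_span] at h
  refine Submodule.span_mono ?_ h
  rintro z ⟨a, ha, b, hb, rfl⟩
  exact ⟨k, l, rfl, a, ha, b, hb, rfl⟩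

lemma mul_SS' {k l m : ℕ} (hm : k + l = m) {x y : F.B} (hx : x ∈ GG F k) (hy : y ∈ GG F l) :
    x * y ∈ SS F m := by
  subst hm; exact mul_SS F hx hy

lemma sq_SS {x : F.B} (hx : x ∈ GG F 0) : x ^ 2 ∈ SS F 0 := by
  have h : x ^ 2 = x * x := pow_two x
  rw [h]
  exact mul_SS' F (k := 0) (l := 0) (add_zero 0) hx hx

lemma n2_SS : F.n2 ∈ SS F 0 := by
  unfold FBD.n2
  exact Submodule.sum_mem _ fun a _ => Submodule.sum_mem _ fun b _ => sq_SS F (M_GG F a b)

lemma evm_SS (m j : Fin 3) : (4 : ℝ) • (∑ i, F.M m i * F.M i j) - (2 : ℝ) • (F.s * F.M m j)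
      + (if m = j then F.s ^ 2 - F.n2 else 0) ∈ SS F 0 := by
  refine Submodule.add_mem _ (Submodule.sub_mem _ ?_ ?_) ?_
  · refine Submodule.smul_mem _ _ (Submodule.sum_mem _ fun a _ => ?_)
    exact mul_SS' F (k := 0) (l := 0) (add_zero 0) (M_GG F _ _) (M_GG F _ _)
  · refine Submodule.smul_mem _ _ ?_
    have hs : F.s ∈ GG F 0 := by
      unfold FBD.s
      exact Submodule.sum_mem _ fun i _ => M_GG F i i
    exact mul_SS' F (k := 0) (l := 0) (add_zero 0) hs (M_GG F _ _)
  · have hs : F.s ∈ GG F 0 := by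
      unfold FBD.s
      exact Submodule.sum_mem _ fun i _ => M_GG F i i
    split_ifs
    · exact Submodule.sub_mem _ (sq_SS F hs) (n2_SS F)
    · exact Submodule.zero_mem _

lemma H_SS {m : ℕ} {x : F.B} (hx : x ∈ SS F m) (a : Fin 3) : F.H a x ∈ SS F (m + 1) := by
  unfold SS at hx
  induction hx using Submodule.span_induction with
  | mem x h =>
    obtain ⟨k, l, hkl, u, hu, v, hv, rfl⟩ := h
    rw [Derivation.leibniz, smul_eq_mul, smul_eq_mul]
    refine Submodule.add_mem _ ?_ ?_
    · exact mul_SS' F (by omega) (mem_GG F hu) (mem_GG F (H_Gset F hv a))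
    · exact mul_SS' F (by omega) (mem_GG F hv) (mem_GG F (H_Gset F hu a))
  | zero => simp
  | add x y _ _ hx hy =>
    rw [map_add]
    exact Submodule.add_mem _ hx hy
  | smul c x _ hx => rw [Derivation.map_smul]; exact Submodule.smul_mem _ c hx

lemma s_GG : F.s ∈ GG F 0 := by
  unfold FBD.s
  exact Submodule.sum_mem _ fun i _ => M_GG F i i

lemma Ric_GG (i j : Fin 3) : F.Ric i j ∈ GG F 0 := by
  unfold FBD.Ric
  refine Submodule.sub_mem _ ?_ (M_GG F i j)
  split_ifs
  · exact s_GG F
  · exact Submodule.zero_mem _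

lemma Y_GG (hR : F.IsRF) (a k : Fin 3) : F.Y a k ∈ GG F 1 := by
  unfold FBD.Y
  refine Submodule.sum_mem _ fun b _ => Submodule.sum_mem _ fun c _ => Submodule.smul_mem _ _ ?_
  rw [hR]
  exact H_GG F (Ric_GG F a c) b

/-- PACKET CA. -/
theorem ca (hEVM : EvmStmt) : CaStmt := by
  intro T F hF hR m
  have key : ∀ m : ℕ, ∀ x ∈ F.Gset m, F.Hop x ∈ SS F m := by
    intro m
    induction m with
    | zero =>
      intro x hx
      obtain ⟨w, i, j, hw, rfl⟩ := hx
      have : w = [] := List.length_eq_zero_iff.mp hw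
      subst this
      change F.Hop (F.M i j) ∈ _
      rw [hEVM T F hF hR i j]
      exact evm_SS F i j
    | succ m ih =>
      intro x hx
      obtain ⟨w, i, j, hw, rfl⟩ := hx
      cases w with
      | nil => simp at hw
      | cons a w =>
        have hw' : w.length = m := by simpa using hw
        have hx' : F.Hw w (F.M i j) ∈ F.Gset m := ⟨w, i, j, hw', rfl⟩
        change F.Hop (F.H a (F.Hw w (F.M i j))) ∈ _
        generalize F.Hw w (F.M i j) = y at hx' ⊢
        have hy := mem_GG F hx'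
        have hD := hF.DHY a y
        have hL : F.Lap (F.H a y) = F.H a (F.Lap y)
            + ∑ b, (F.H b (F.H b (F.H a y) - F.H a (F.H b y))
              + (F.H b (F.H a (F.H b y)) - F.H a (F.H b (F.H b y)))) := by
          unfold FBD.Lap
          rw [map_sum, ← Finset.sum_add_distrib]
          refine Finset.sum_congr rfl fun b _ => ?_
          rw [map_sub]; ring
        have hE : F.Hop (F.H a y) = F.H a (F.Hop y)
            + (∑ b, F.S a b * F.H b y + ∑ k, F.Y a k * F.V k y)
            - ∑ b, (F.H b (F.H b (F.H a y) - F.H a (F.H b y))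
              + (F.H b (F.H a (F.H b y)) - F.H a (F.H b (F.H b y)))) := by
          unfold FBD.Hop
          rw [hD, hL, map_sub]; ring
        rw [hE]
        refine Submodule.sub_mem _ (Submodule.add_mem _ (H_SS F (ih y hx') a)
          (Submodule.add_mem _ ?_ ?_)) ?_
        · refine Submodule.sum_mem _ fun b _ => ?_
          rw [hR]
          exact mul_SS' F (by omega) (Ric_GG F a b) (H_GG F hy b)
        · refine Submodule.sum_mem _ fun k _ => ?_
          exact mul_SS' F (by omega) (Y_GG F hR a k) (V_Gset F hF hx' k)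
        · refine Submodule.sum_mem _ fun b _ => Submodule.add_mem _ ?_ ?_
          · refine H_SS F ?_ b
            rw [hF.HH]
            refine Submodule.sum_mem _ fun i _ => Submodule.sum_mem _ fun j _ =>
              Submodule.smul_mem _ _ ?_
            exact mul_SS' F (by omega) (M_GG F i j) (V_Gset F hF hx' j)
          · rw [hF.HH]
            refine Submodule.sum_mem _ fun i _ => Submodule.sum_mem _ fun j _ =>
              Submodule.smul_mem _ _ ?_
            exact mul_SS' F (by omega) (M_GG F i j) (V_Gset F hF (H_Gset F hx' b) j)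
  exact key m

end Pool.Agent.Helper37.RF
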